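import Pool.Agent.helper99.EP.Spec

set_option autoImplicit false

namespace Pool.Agent.EP

open Finset Pool.Agent.helper85.FC Pool.Agent.OM Pool.Agent.helper11.TX Pool.Agent.AT

/-- a translation such that all small primes do not divide the constant term -/
theorem EVC_crt (Q b : ℕ) (c : ℤ) (hbc : IsCoprime (b : ℤ) c) :
    ∃ j : ℕ, j < Q.factorial ∧ ∀ l : ℕ, l.Prime → l ≤ Q → ¬ (l : ℤ) ∣ c - b * j := by
  classical
  obtain ⟨S, hS⟩ : ∃ S : Finset ℕ, S = (Ico 1 (Q + 1)).filter (fun l => l.Prime ∧ ¬ l ∣ b) := ⟨_, rfl⟩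
  obtain ⟨M, hM⟩ : ∃ M : ℕ, M = ∏ l ∈ S, l := ⟨_, rfl⟩
  have hMP : M ∣ Q.factorial := by
    rw [hM, hS, ← Finset.prod_Ico_id_eq_factorial]
    exact Finset.prod_dvd_prod_of_subset _ _ _ (Finset.filter_subset _ _)
  have hM0 : 0 < M := Nat.pos_of_dvd_of_pos hMP (Nat.factorial_pos Q)
  have hcop : Nat.Coprime b M := by
    rw [hM]
    apply Nat.Coprime.prod_right
    intro l hl
    rw [hS, Finset.mem_filter] at hl
    exact ((Nat.Prime.coprime_iff_not_dvd hl.2.1).mpr hl.2.2).symm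
  obtain ⟨u, v, huv⟩ : ∃ u v : ℤ, u * b + v * M = 1 := by
    have := Nat.isCoprime_iff_coprime.mpr hcop
    exact this
  have hMz : (0 : ℤ) < M := by exact_mod_cast hM0
  have hr0 : 0 ≤ (u * (c - 1)) % M := Int.emod_nonneg _ (ne_of_gt hMz)
  have hr1 : (u * (c - 1)) % M < M := Int.emod_lt_of_pos _ hMz
  obtain ⟨j, hj⟩ := Int.eq_ofNat_of_zero_le hr0
  refine ⟨j, ?_, ?_⟩
  · have h1 : (j : ℤ) < M := by rw [← hj]; exact hr1
    have h2 : j < M := by exact_mod_cast h1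
    exact lt_of_lt_of_le h2 (Nat.le_of_dvd (Nat.factorial_pos Q) hMP)
  · intro l hl hlQ hd
    by_cases hlb : l ∣ b
    · have h1 : (l : ℤ) ∣ (b : ℤ) := by exact_mod_cast hlb
      have h2 : (l : ℤ) ∣ c := by
        have h3 : (l : ℤ) ∣ (b : ℤ) * j := Dvd.dvd.mul_right h1 _
        have h4 := dvd_add hd h3
        simpa using h4
      have h5 : IsUnit (l : ℤ) := hbc.isUnit_of_dvd' h1 h2
      rw [Int.isUnit_iff] at h5
      have := hl.two_le
      omega
    · have hlS : l ∈ S := by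
        rw [hS, Finset.mem_filter, Finset.mem_Ico]
        exact ⟨⟨hl.one_le, by omega⟩, hl, hlb⟩
      have hlM : (l : ℤ) ∣ (M : ℤ) := by
        rw [hM]
        exact_mod_cast Finset.dvd_prod_of_mem _ hlS
      have h1 : (M : ℤ) ∣ u * (c - 1) - j := by
        have h7 : (j : ℤ) = (u * (c - 1)) % M := by rw [hj]
        rw [h7]
        exact Int.dvd_self_sub_emod
      have h2 : (l : ℤ) ∣ b * (u * (c - 1) - j) := Dvd.dvd.mul_left (hlM.trans h1) _
      have h3 : (l : ℤ) ∣ v * M * (c - 1) := Dvd.dvd.mul_right (Dvd.dvd.mul_left hlM _) _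
      have h4 : (l : ℤ) ∣ 1 := by
        have h5 := dvd_sub hd (dvd_add h2 h3)
        have h6 : c - b * j - (b * (u * (c - 1) - j) + v * M * (c - 1)) = 1 := by
          linear_combination (-(c - 1)) * huv
        rwa [h6] at h5
      have h5 : IsUnit (l : ℤ) := isUnit_of_dvd_one h4
      rw [Int.isUnit_iff] at h5
      have := hl.two_le
      omega

theorem EVC : EVC_stmt := by
  classical
  intro hMXF hF m hm
  obtain ⟨κ, V₀, hκ, hVκ, hDU, hD⟩ := hMXF hF m hm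
  obtain ⟨P, hP⟩ : ∃ P : ℕ, P = (2 * κ).factorial := ⟨_, rfl⟩
  let ρ : (ℕ × ℤ) × ℕ → ℕ × ℤ := fun x => (x.1.1, x.1.1 * x.2 + x.1.2)
  refine ⟨(V₀ ×ˢ range P).image ρ, ?_, ?_⟩
  · intro v hv
    obtain ⟨x, hx, rfl⟩ := Finset.mem_image.mp hv
    exact (hDU x.1 (Finset.mem_product.mp hx).1).1
  intro b c hb hbc N
  obtain ⟨j, hjP, hj⟩ := EVC_crt (2 * κ) b c hbc
  rw [← hP] at hjP
  have hw : FU (2 * κ) (b, c - b * j) := by
    refine ⟨hb, ?_, hj⟩
    show IsCoprime (b : ℤ) (c - b * j)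
    have := IsCoprime.add_mul_left_right hbc (-(j : ℤ))
    have h2 : c + (b : ℤ) * -(j : ℤ) = c - b * j := by ring
    rwa [h2] at this
  obtain ⟨n, hn, _, hpr, hcount⟩ := hD 1 b (c - b * j) 0 le_rfl hw
    (by intro v hv; simpa using hDU v hv) (N + P)
  have hjn : j ≤ n := by omega
  refine ⟨n - j, by omega, ?_, ?_⟩
  · have h1 : (b : ℤ) * ((n - j : ℕ) : ℤ) + c = b * n + (c - b * j) := by
      push_cast [Nat.cast_sub hjn]
      ring
    rw [h1]
    exact hpr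
  · refine hcount.trans ?_
    apply Finset.card_le_card_of_injOn (fun v => ρ (v, j))
    · intro v hv
      have hv' := Finset.mem_filter.mp hv
      have h1 : (v.1 : ℤ) * ((n - j : ℕ) : ℤ) + (v.1 * j + v.2) = v.1 * (((1 : ℕ) : ℤ) * n + 0) + v.2 := by
        push_cast [Nat.cast_sub hjn]
        ring
      have h2 : (b : ℤ) * ((n - j : ℕ) : ℤ) + c = b * n + (c - b * j) := by
        push_cast [Nat.cast_sub hjn]
        ring
      refine Finset.mem_coe.mpr (Finset.mem_filter.mpr ⟨?_, ?_, ?_⟩)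
      · exact Finset.mem_image_of_mem ρ (Finset.mem_product.mpr ⟨hv'.1, Finset.mem_range.mpr hjP⟩)
      · show ((v.1 : ℤ) * ((n - j : ℕ) : ℤ) + (v.1 * j + v.2)).toNat.Prime
        rw [h1]
        exact hv'.2.1
      · show (v.1 : ℤ) * ((n - j : ℕ) : ℤ) + (v.1 * j + v.2) ≠ b * ((n - j : ℕ) : ℤ) + c
        rw [h1, h2]
        exact hv'.2.2
    · rintro ⟨s, t⟩ _ ⟨s', t'⟩ _ hh
      simp only [ρ, Prod.mk.injEq] at hh
      obtain ⟨h1, h2⟩ := hh
      subst h1
      simpa using h2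

end Pool.Agent.EP
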