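import Pool.Agent.helper99.EP.Spec

set_option autoImplicit false

namespace Pool.Agent.EP

open Finset Pool.Agent.helper85.FC Pool.Agent.OM Pool.Agent.helper11.TX Pool.Agent.AT

/-- the number of prime values of the image of a family under a substitution -/
theorem MXF_image (X : Finset (ℕ × ℤ)) (σ : ℕ × ℤ → ℕ × ℤ) (hσ : Function.Injective σ) (n n' : ℤ)
    (h : ∀ v : ℕ × ℤ, ((σ v).1 : ℤ) * n + (σ v).2 = v.1 * n' + v.2) :
    cp (X.image σ) n = cp X n' := by
  unfold cp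
  rw [Finset.filter_image, Finset.card_image_of_injective _ hσ]
  congr 1
  apply Finset.filter_congr
  intro v _
  rw [h v]

/-- two different forms have different values for all large `n` -/
theorem MXF_ne (s s' : ℕ) (t t' : ℤ) (n : ℕ) (hne : (s, t) ≠ (s', t')) (hn : |t - t'| < n) :
    (s : ℤ) * n + t ≠ s' * n + t' := by
  intro h
  by_cases hs : s = s'
  · subst hs
    apply hne
    have : t = t' := by linarith
    rw [this]
  · have h1 : ((s : ℤ) - s') * n = t' - t := by linarith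
    have h2 : (1 : ℤ) ≤ |(s : ℤ) - s'| := by
      apply Int.one_le_abs
      intro h0
      apply hs
      exact_mod_cast sub_eq_zero.mp h0
    have h3 : |t' - t| = |(s : ℤ) - s'| * n := by
      rw [← h1, abs_mul, Nat.abs_cast]
    have h4 : (n : ℤ) ≤ |(s : ℤ) - s'| * n := by
      nlinarith [Int.natCast_nonneg n]
    rw [abs_sub_comm] at hn
    omega

theorem MXF (hFUR : FUR_stmt) : MXF_stmt := by
  classical
  intro hF m hm
  obtain ⟨R, hR1, hR⟩ := hFUR hF m hm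
  obtain ⟨Q, hQ⟩ : ∃ Q : ℕ, Q = 2 * (2 * R) := ⟨_, rfl⟩
  have hRQ : R ≤ Q := by omega
  have hpoor : ∀ X : Finset (ℕ × ℤ), (∀ v ∈ X, FU Q v) → Poor m X → #X < R := by
    intro X hX hP
    by_contra h
    exact hR Q hRQ X hX (not_lt.mp h) hP
  obtain ⟨X, hXU, hXP, hXmax⟩ : ∃ X : Finset (ℕ × ℤ), (∀ v ∈ X, FU Q v) ∧ Poor m X ∧
      ∀ Y : Finset (ℕ × ℤ), (∀ v ∈ Y, FU Q v) → Poor m Y → #Y ≤ #X := by
    let p : ℕ → Prop := fun k => ∃ X : Finset (ℕ × ℤ), (∀ v ∈ X, FU Q v) ∧ Poor m X ∧ #X = k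
    have hp0 : p 0 := ⟨∅, by simp, ⟨0, by intro n _; simp [cp]⟩, by simp⟩
    obtain ⟨X, h1, h2, h3⟩ := Nat.findGreatest_spec (P := p) (Nat.zero_le R) hp0
    refine ⟨X, h1, h2, fun Y hY1 hY2 => ?_⟩
    rw [h3]
    exact Nat.le_findGreatest (le_of_lt (hpoor Y hY1 hY2)) ⟨Y, hY1, hY2, rfl⟩
  have hXR : #X < R := hpoor X hXU hXP
  -- a bound for the second entries
  obtain ⟨B, hB⟩ : ∃ B : ℕ, ∀ v ∈ X, |v.2| ≤ B := by
    refine ⟨∑ v ∈ X, v.2.natAbs, fun v hv => ?_⟩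
    have : v.2.natAbs ≤ ∑ v ∈ X, v.2.natAbs :=
      Finset.single_le_sum (f := fun v : ℕ × ℤ => v.2.natAbs) (fun _ _ => Nat.zero_le _) hv
    rw [Int.abs_eq_natAbs]
    exact_mod_cast this
  obtain ⟨c, hc⟩ : ∃ c : ℕ, c = Q.factorial * (2 * B + 1) := ⟨_, rfl⟩
  have hcB : 2 * B + 1 ≤ c := by
    rw [hc]
    exact Nat.le_mul_of_pos_left _ (Nat.factorial_pos Q)
  let τ : ℕ × ℤ → ℕ × ℤ := fun v => (v.1, v.1 * c + v.2)
  have hτ : Function.Injective τ := by
    rintro ⟨s, t⟩ ⟨s', t'⟩ h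
    simp only [τ, Prod.mk.injEq] at h
    obtain ⟨h1, h2⟩ := h
    subst h1
    simpa using h2
  obtain ⟨X', hX'⟩ : ∃ X' : Finset (ℕ × ℤ), X' = X.image τ := ⟨_, rfl⟩
  have hX'U : ∀ v ∈ X', FU Q v := by
    intro v hv
    rw [hX', Finset.mem_image] at hv
    obtain ⟨⟨s, t⟩, hst, rfl⟩ := hv
    obtain ⟨h1, h2, h3⟩ := hXU _ hst
    refine ⟨h1, ?_, ?_⟩
    · show IsCoprime (s : ℤ) (s * c + t)
      exact (IsCoprime.mul_add_left_right h2 (c : ℤ))
    · intro l hl hlQ hd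
      apply h3 l hl hlQ
      have h4 : (l : ℤ) ∣ (s : ℤ) * c := by
        apply Dvd.dvd.mul_left
        rw [hc]
        push_cast
        apply Dvd.dvd.mul_right
        exact_mod_cast (hl.dvd_factorial).mpr hlQ
      have h5 : (l : ℤ) ∣ (s : ℤ) * c + t := hd
      exact (dvd_add_right h4).mp h5
  have hX'P : Poor m X' := by
    obtain ⟨N, hN⟩ := hXP
    refine ⟨N, fun n hn => ?_⟩
    rw [hX', MXF_image X τ hτ (n : ℤ) ((n + c : ℕ) : ℤ)
      (by intro v; simp only [τ]; push_cast; ring)]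
    exact hN (n + c) (by omega)
  have hX'card : #X' = #X := by rw [hX', Finset.card_image_of_injective _ hτ]
  have hdisj : ∀ v ∈ X, v ∉ X' := by
    intro v hv hv'
    rw [hX', Finset.mem_image] at hv'
    obtain ⟨u, hu, huv⟩ := hv'
    have h1 := hB v hv
    have h2 := hB u hu
    have h3 := (hXU u hu).1
    have h4 : v.2 = u.1 * c + u.2 := by rw [← huv]
    have h5 : (c : ℤ) ≤ (u.1 : ℤ) * c := by
      have : (1 : ℤ) ≤ u.1 := by exact_mod_cast h3
      nlinarith [Int.natCast_nonneg c]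
    have h6 : (2 * B + 1 : ℤ) ≤ c := by exact_mod_cast hcB
    rw [abs_le] at h1 h2
    omega
  refine ⟨2 * R, X ∪ X', by omega, ?_, ?_⟩
  · have := Finset.card_union_le X X'
    omega
  rw [← hQ]
  refine ⟨?_, ?_⟩
  · intro v hv
    rcases Finset.mem_union.mp hv with h | h
    · exact hXU v h
    · exact hX'U v h
  intro a b h m' ha hw hV N
  let σ : ℕ × ℤ → ℕ × ℤ := fun v => (v.1 * a, v.1 * m' + v.2)
  have hσ : Function.Injective σ := by
    rintro ⟨s, t⟩ ⟨s', t'⟩ hh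
    simp only [σ, Prod.mk.injEq] at hh
    obtain ⟨h1, h2⟩ := hh
    have h3 : s = s' := Nat.eq_of_mul_eq_mul_right (by omega) h1
    subst h3
    simpa using h2
  -- choose the half
  obtain ⟨Z, hZV, hZc, hZP, hwZ⟩ : ∃ Z : Finset (ℕ × ℤ), Z ⊆ X ∪ X' ∧ #Z = #X ∧ Poor m Z ∧ (b, h) ∉ Z.image σ := by
    by_cases hwX : (b, h) ∈ X.image σ
    · refine ⟨X', Finset.subset_union_right, hX'card, hX'P, ?_⟩
      intro hwX'
      obtain ⟨u, hu, hu2⟩ := Finset.mem_image.mp hwX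
      obtain ⟨u', hu', hu2'⟩ := Finset.mem_image.mp hwX'
      have : u = u' := hσ (hu2.trans hu2'.symm)
      subst this
      exact hdisj u hu hu'
    · exact ⟨X, Finset.subset_union_left, rfl, hXP, hwX⟩
  obtain ⟨NZ, hNZ⟩ := hZP
  obtain ⟨Y, hY⟩ : ∃ Y : Finset (ℕ × ℤ), Y = Z.image σ := ⟨_, rfl⟩
  rw [← hY] at hwZ
  have hYU : ∀ v ∈ insert (b, h) Y, FU Q v := by
    intro v hv
    rcases Finset.mem_insert.mp hv with hv | hv
    · rw [hv]; exact hw
    · rw [hY, Finset.mem_image] at hv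
      obtain ⟨u, hu, rfl⟩ := hv
      exact hV u (hZV hu)
  have hYc : #(insert (b, h) Y) = #X + 1 := by
    rw [Finset.card_insert_of_notMem hwZ, hY, Finset.card_image_of_injective _ hσ, hZc]
  have hnp : ¬ Poor m (insert (b, h) Y) := by
    intro hp
    have := hXmax _ hYU hp
    omega
  have hnp2 : ∀ N' : ℕ, ∃ n : ℕ, N' ≤ n ∧ m < cp (insert (b, h) Y) n := by
    intro N'
    by_contra hcon
    push Not at hcon
    exact hnp ⟨N', hcon⟩
  obtain ⟨n, hn, hmn⟩ := hnp2 (N + NZ + m'.natAbs + (∑ y ∈ Y, (y.2 - h).natAbs) + 1)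
  have hn1 : (m'.natAbs : ℤ) = |m'| := by rw [Int.abs_eq_natAbs]
  have hcpY : ∀ k : ℤ, cp Y k = cp Z (a * k + m') := by
    intro k
    rw [hY]
    apply MXF_image Z σ hσ
    intro v
    simp only [σ]
    push_cast
    ring
  have hnn : (n : ℤ) - |m'| ≤ a * n + m' := by
    have h1 : -|m'| ≤ m' := neg_abs_le m'
    have h2 : (n : ℤ) ≤ (a : ℤ) * n := by
      have : (1 : ℤ) ≤ a := by exact_mod_cast ha
      nlinarith [Int.natCast_nonneg n]
    linarith
  have hnN : (N + NZ + m'.natAbs + (∑ y ∈ Y, (y.2 - h).natAbs) + 1 : ℕ) ≤ (n : ℤ) := by exact_mod_cast hn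
  have hbig : (NZ : ℤ) ≤ a * n + m' := by
    push_cast at hnN
    have h0 : (0 : ℤ) ≤ ∑ y ∈ Y, |y.2 - h| := Finset.sum_nonneg (fun _ _ => abs_nonneg _)
    have h0' : (0 : ℤ) ≤ N := Int.natCast_nonneg N
    rw [hn1] at *
    linarith
  have hpos : 0 ≤ (a : ℤ) * n + m' := le_trans (Int.natCast_nonneg NZ) hbig
  have hcpYm : cp Y n ≤ m := by
    rw [hcpY]
    obtain ⟨k, hk⟩ := Int.eq_ofNat_of_zero_le hpos
    rw [hk] at hbig ⊢
    exact hNZ k (by exact_mod_cast hbig)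
  have hins : cp (insert (b, h) Y) n ≤ cp Y n + (if ((b : ℤ) * n + h).toNat.Prime then 1 else 0) := by
    unfold cp
    rw [Finset.filter_insert]
    split_ifs with hp
    · exact Finset.card_insert_le _ _
    · simp
  have hprime : ((b : ℤ) * n + h).toNat.Prime := by
    by_contra hp
    rw [if_neg hp] at hins
    omega
  rw [if_pos hprime] at hins
  have hm2 : m ≤ cp Y n := by omega
  refine ⟨n, by omega, hpos, hprime, ?_⟩
  rw [hcpY] at hm2
  refine hm2.trans ?_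
  unfold cp
  apply Finset.card_le_card
  intro v hv
  rw [Finset.mem_filter] at hv ⊢
  refine ⟨hZV hv.1, hv.2, ?_⟩
  have hσv : σ v ∈ Y := by rw [hY]; exact Finset.mem_image_of_mem σ hv.1
  have hne : ((σ v).1, (σ v).2) ≠ (b, h) := by
    intro he
    apply hwZ
    rw [← he]
    exact hσv
  have hlt : |(σ v).2 - h| < (n : ℤ) := by
    have h1 : ((σ v).2 - h).natAbs ≤ ∑ y ∈ Y, (y.2 - h).natAbs :=
      Finset.single_le_sum (f := fun y : ℕ × ℤ => (y.2 - h).natAbs) (fun _ _ => Nat.zero_le _) hσv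
    rw [Int.abs_eq_natAbs]
    have h2 : ((σ v).2 - h).natAbs < n := by omega
    exact_mod_cast h2
  have := MXF_ne (σ v).1 b (σ v).2 h n hne hlt
  intro he
  apply this
  rw [← he]
  simp only [σ]
  push_cast
  ring

end Pool.Agent.EP
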